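import Pool.Agent.Z894.LX.Stm

/-!
Project LX (helper894), part 7: placing the pieces along a walk.
-/

set_option autoImplicit false

namespace Pool.Agent.Y240.LX

theorem exists_slot (b : ℕ → ℕ) (r t : ℕ) (h : t < ∑ j ∈ Finset.range r, b j) :
    ∃ j < r, ∑ j' ∈ Finset.range j, b j' ≤ t ∧ t < ∑ j' ∈ Finset.range j, b j' + b j := by
  induction r with
  | zero => simp at h
  | succ r ih =>
    by_cases h2 : t < ∑ j ∈ Finset.range r, b j
    · obtain ⟨j, hj, h3⟩ := ih h2
      exact ⟨j, by omega, h3⟩
    · rw [Finset.sum_range_succ] at h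
      exact ⟨r, by omega, by omega, h⟩

theorem place (r G m V : ℕ) (a : Fin r → ℕ) (g : Fin r → Option (Fin G)) (w : ℕ → Fin V)
    (hm : m ≤ G + ∑ i ∈ Finset.univ.filter (fun i => g i = none), a i) :
    ∃ (ga gb : Fin G → Fin V) (S : Fin r → Finset (Fin V)),
      (∀ i, (S i).Nonempty ∧ (S i).card ≤ a i + 1) ∧
      ∀ t < m, (∃ c, ga c = w t ∧ gb c = w (t + 1)) ∨
        ∃ i, g i = none ∧ w t ∈ S i ∧ w (t + 1) ∈ S i := by
  classical
  set A := ∑ i ∈ Finset.univ.filter (fun i => g i = none), a i with hA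
  let b : ℕ → ℕ := fun j => if h : j < r then (if g ⟨j, h⟩ = none then a ⟨j, h⟩ else 0) else 0
  have hb : ∀ i : Fin r, b i = if g i = none then a i else 0 := fun i => by
    simp [b, i.2]
  have hsum : ∑ j ∈ Finset.range r, b j = A := by
    rw [hA, Finset.sum_filter, ← Fin.sum_univ_eq_sum_range]
    exact Finset.sum_congr rfl fun i _ => hb i
  refine ⟨fun c => w (A + c), fun c => w (A + c + 1),
    fun i => (Finset.Icc (∑ j' ∈ Finset.range i, b j') (∑ j' ∈ Finset.range i, b j' + b i)).image w, ?_, ?_⟩
  · intro i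
    refine ⟨(Finset.nonempty_Icc.2 (by omega)).image _, Finset.card_image_le.trans ?_⟩
    rw [Nat.card_Icc]
    have : b i ≤ a i := by
      rw [hb]
      split_ifs <;> omega
    omega
  · intro t ht
    by_cases h : t < A
    · right
      rw [← hsum] at h
      obtain ⟨j, hj, h1, h2⟩ := exists_slot b r t h
      refine ⟨⟨j, hj⟩, ?_, ?_, ?_⟩
      · by_contra hne
        have := hb ⟨j, hj⟩
        rw [if_neg hne] at this
        simp only at this
        omega
      · exact Finset.mem_image_of_mem _ (Finset.mem_Icc.2 ⟨h1, by simp only; omega⟩)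
      · exact Finset.mem_image_of_mem _ (Finset.mem_Icc.2 ⟨by simp only; omega, by simp only; omega⟩)
    · left
      refine ⟨⟨t - A, by omega⟩, ?_, ?_⟩
      · have : A + (t - A) = t := by omega
        simp only [this]
      · have : A + (t - A) = t := by omega
        simp only [this]

theorem place_holds : Pool.Agent.Z894.LX.GPlace := place

end Pool.Agent.Y240.LX
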